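import Pool.Agent.Helper66_KF.Stmts

/-!
Row TRC of the squad KF: the trace of `x ↦ a x b` on the group ring (column orthogonality).
-/

open scoped BigOperators

noncomputable section

namespace Pool.Agent.PP.KF

open Pool.Agent.Helper51_AWC Pool.Agent.Helper79_WRA Pool.Agent.PP

/-- column orthogonality, in the form which counts the conjugating elements -/
theorem col_sum {G : Type} [Group G] [Fintype G] [DecidableEq G] [Fintype (Irr G)] (g h : G) :
    ∑ χ : Irr G, (χ : G → ℂ) g * (χ : G → ℂ) h = ∑ x : G, if x⁻¹ * g⁻¹ * x = h then 1 else 0 := by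
  have key : (fun h : G => ∑ χ : Irr G, (χ : G → ℂ) g * (χ : G → ℂ) h -
      ∑ x : G, if x⁻¹ * g⁻¹ * x = h then (1 : ℂ) else 0) = 0 := by
    apply irr_complete'
    · intro y z
      have h1 : ∑ χ : Irr G, (χ : G → ℂ) g * (χ : G → ℂ) (z * y * z⁻¹) =
          ∑ χ : Irr G, (χ : G → ℂ) g * (χ : G → ℂ) y :=
        Finset.sum_congr rfl fun χ _ => by rw [irr_conj χ.2]
      have h2 : ∑ x : G, (if x⁻¹ * g⁻¹ * x = z * y * z⁻¹ then (1 : ℂ) else 0) =
          ∑ x : G, if x⁻¹ * g⁻¹ * x = y then (1 : ℂ) else 0 := by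
        rw [← Equiv.sum_comp (Equiv.mulRight z⁻¹)]
        refine Finset.sum_congr rfl fun x _ => ?_
        rw [Equiv.coe_mulRight]
        have h3 : (x * z⁻¹)⁻¹ * g⁻¹ * (x * z⁻¹) = z * (x⁻¹ * g⁻¹ * x) * z⁻¹ := by group
        rw [h3]
        have h4 : z * (x⁻¹ * g⁻¹ * x) * z⁻¹ = z * y * z⁻¹ ↔ x⁻¹ * g⁻¹ * x = y := by
          rw [mul_left_inj, mul_right_inj]
        simp only [h4]
      rw [h1, h2]
    · intro ψ hψ
      simp only [sub_mul, Finset.sum_sub_distrib, Finset.sum_mul]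
      rw [sub_eq_zero, Finset.sum_comm, Finset.sum_eq_single_of_mem ⟨ψ, hψ⟩ (Finset.mem_univ _)]
      · simp_rw [mul_assoc]
        rw [← Finset.mul_sum, irr_orth_self hψ, Finset.sum_comm]
        have h5 : ∀ x : G, ∑ h : G, (if x⁻¹ * (g⁻¹ * x) = h then (1 : ℂ) else 0) * ψ h⁻¹ = ψ g := by
          intro x
          rw [Finset.sum_eq_single_of_mem (x⁻¹ * (g⁻¹ * x)) (Finset.mem_univ _)]
          · rw [if_pos rfl, one_mul]
            have h6 : (x⁻¹ * (g⁻¹ * x))⁻¹ = x⁻¹ * g * (x⁻¹)⁻¹ := by group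
            rw [h6, irr_conj hψ]
          · intro h _ hne
            rw [if_neg (Ne.symm hne), zero_mul]
        rw [Finset.sum_congr rfl fun x _ => h5 x, Finset.sum_const, Finset.card_univ,
          nsmul_eq_mul, mul_comm]
      · intro χ _ hne
        simp_rw [mul_assoc]
        rw [← Finset.mul_sum, irr_orth_ne χ.2 hψ (fun h => hne (Subtype.ext h)), mul_zero]
  exact sub_eq_zero.1 (congrFun key h)

theorem trc : TrcStmt := by
  intro G _ _ a b
  classical
  have : Fintype G := Fintype.ofFinite G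
  have : Fintype (Irr G) := Fintype.ofFinite _
  have hch : ∀ (c χ : G → ℂ), chv c χ = ∑ g, c g * χ g := fun c χ =>
    finsum_eq_sum_of_fintype _
  have h1 : ∑ᶠ χ ∈ Irr G, chv a χ * chv b χ = ∑ χ : Irr G, chv a χ * chv b χ := by
    rw [← finsum_set_coe_eq_finsum_mem (Irr G)]
    exact finsum_eq_sum_of_fintype _
  have h2 : ∑ᶠ (x : G) (g : G), a g * b (x⁻¹ * g⁻¹ * x) =
      ∑ x : G, ∑ g : G, a g * b (x⁻¹ * g⁻¹ * x) := by
    rw [finsum_eq_sum_of_fintype]
    exact Finset.sum_congr rfl fun x _ => finsum_eq_sum_of_fintype _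
  rw [h1, h2]
  calc ∑ χ : Irr G, chv a χ * chv b χ
      = ∑ χ : Irr G, ∑ g : G, ∑ h : G, a g * b h * ((χ : G → ℂ) g * (χ : G → ℂ) h) := by
        refine Finset.sum_congr rfl fun χ _ => ?_
        rw [hch, hch, Finset.sum_mul_sum]
        refine Finset.sum_congr rfl fun g _ => Finset.sum_congr rfl fun h _ => ?_
        ring
    _ = ∑ g : G, ∑ h : G, a g * b h * ∑ χ : Irr G, ((χ : G → ℂ) g * (χ : G → ℂ) h) := by
        rw [Finset.sum_comm]
        refine Finset.sum_congr rfl fun g _ => ?_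
        rw [Finset.sum_comm]
        refine Finset.sum_congr rfl fun h _ => ?_
        rw [Finset.mul_sum]
    _ = ∑ g : G, ∑ x : G, a g * b (x⁻¹ * g⁻¹ * x) := by
        refine Finset.sum_congr rfl fun g _ => ?_
        simp_rw [col_sum, Finset.mul_sum]
        rw [Finset.sum_comm]
        refine Finset.sum_congr rfl fun x _ => ?_
        rw [Finset.sum_eq_single_of_mem (x⁻¹ * g⁻¹ * x) (Finset.mem_univ _)]
        · rw [if_pos rfl, mul_one]
        · intro h _ hne
          rw [if_neg (Ne.symm hne), mul_zero]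
    _ = ∑ x : G, ∑ g : G, a g * b (x⁻¹ * g⁻¹ * x) := Finset.sum_comm

end Pool.Agent.PP.KF
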